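import Mathlib

set_option autoImplicit false

namespace Pool.Agent.Results.MP_c50127_co.Counterexample

/-- Words over the alphabet a = false < b = true.  A word is Lyndon when it is nonempty and
lexicographically strictly smaller than each of its proper nonempty suffixes. -/
def IsLyndon (w : List Bool) : Prop :=
  w ≠ [] ∧ ∀ s : List Bool, s <:+ w → s ≠ [] → s ≠ w → List.Lex (· < ·) w s

/-- The number of distinct factors of w that are Lyndon words. -/
noncomputable def lyndonCount (w : List Bool) : ℕ :=
  {u : List Bool | u <:+: w ∧ IsLyndon u}.ncard

/-- The least number of distinct Lyndon factors of a Lyndon word of length n. -/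
noncomputable def minCount (n : ℕ) : ℕ :=
  sInf {c : ℕ | ∃ w : List Bool, IsLyndon w ∧ w.length = n ∧ lyndonCount w = c}

/-- The lower Christoffel word of slope p / n. -/
def christoffel (p n : ℕ) : List Bool :=
  (List.range n).map fun i => decide ((i + 1) * p / n ≠ i * p / n)

/-! ### Boolean checkers -/

noncomputable def ltB (x : List Bool) : List Bool → Bool :=
  List.rec (fun y => List.rec false (fun _ _ _ => true) y)
    (fun a _ ih y => List.rec false
      (fun b y' _ => Bool.rec (Bool.rec (ih y') true b) (Bool.rec false (ih y') b) a) y) x

theorem ltB_iff : ∀ x y : List Bool, ltB x y = true ↔ List.Lex (· < ·) x y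
  | [], [] => by simp [ltB]
  | [], _ :: _ => by simp [ltB]
  | _ :: _, [] => by simp [ltB]
  | a :: x, b :: y => by
    have ih := ltB_iff x y
    have h : ltB (a :: x) (b :: y) =
        Bool.rec (Bool.rec (ltB x y) true b) (Bool.rec false (ltB x y) b) a := rfl
    rw [List.cons_lex_cons_iff, h]
    cases a <;> cases b <;> simp [ih]

noncomputable def allGt (w : List Bool) (t : List Bool) : Bool :=
  List.rec true (fun a t ih => Bool.rec false ih (ltB w (a :: t))) t

theorem allGt_cons (w : List Bool) (a : Bool) (t : List Bool) :
    allGt w (a :: t) = (ltB w (a :: t) && allGt w t) := by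
  have h : allGt w (a :: t) = Bool.rec false (allGt w t) (ltB w (a :: t)) := rfl
  rw [h]
  cases ltB w (a :: t) <;> rfl

theorem allGt_spec (w : List Bool) : ∀ t : List Bool, allGt w t = true →
    ∀ s : List Bool, s <:+ t → s ≠ [] → List.Lex (· < ·) w s
  | [], _, s, hs, hne => absurd (List.suffix_nil.mp hs) hne
  | a :: t, h, s, hs, hne => by
    simp only [allGt_cons, Bool.and_eq_true] at h
    rcases List.suffix_cons_iff.mp hs with rfl | hs'
    · exact (ltB_iff _ _).mp h.1
    · exact allGt_spec w t h.2 s hs' hne

noncomputable def lynB : List Bool → Bool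
  | [] => false
  | a :: t => allGt (a :: t) t

theorem lynB_spec : ∀ w : List Bool, lynB w = true → IsLyndon w
  | [], h => by simp [lynB] at h
  | a :: t, h => by
    refine ⟨by simp, fun s hs hne hne' => ?_⟩
    rcases List.suffix_cons_iff.mp hs with rfl | hs'
    · exact absurd rfl hne'
    · exact allGt_spec _ t h s hs' hne

theorem not_lex_take : ∀ (x y : List Bool), List.Lex (· < ·) x y → ∀ a b : ℕ, b ≤ a →
    ¬ List.Lex (· < ·) (y.take a) (x.take b)
  | [], _, _, _, _, _ => by simp
  | _ :: _, [], h, _, _, _ => by simp at h
  | c :: x, d :: y, h, a, b, hab => by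
    rcases b with _ | b
    · simp
    rcases a with _ | a
    · omega
    rw [List.cons_lex_cons_iff] at h
    simp only [List.take_succ_cons, List.cons_lex_cons_iff]
    rcases h with h | ⟨rfl, h⟩
    · rintro (h' | ⟨rfl, _⟩)
      · exact lt_asymm h h'
      · exact lt_irrefl _ h
    · rintro (h' | ⟨_, h'⟩)
      · exact lt_irrefl _ h'
      · exact not_lex_take x y h a b (by omega) h'

noncomputable def good (Ls : List (List Bool)) (s : List Bool) : Bool :=
  s.isEmpty || Ls.any fun u => !u.isEmpty && u.isPrefixOf s &&
    ((s.drop u.length).isEmpty || ltB (s.drop u.length) s)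

theorem good_spec (Ls : List (List Bool)) (hL : ∀ u ∈ Ls, good Ls u.dropLast = true) :
    ∀ (n : ℕ) (s : List Bool), s.length = n → good Ls s = true →
      ∀ v : List Bool, v <+: s → IsLyndon v → v ∈ Ls := by
  intro n
  induction n using Nat.strong_induction_on with
  | _ n ih =>
  intro s hn hs v hv hlyn
  simp only [good, Bool.or_eq_true, List.isEmpty_iff, List.any_eq_true, Bool.and_eq_true,
    Bool.not_eq_true', List.isPrefixOf_iff_prefix] at hs
  rcases hs with rfl | ⟨u, hu, ⟨hune, hus⟩, hrest⟩
  · exact absurd (List.prefix_nil.mp hv) hlyn.1
  have hune' : u ≠ [] := by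
    intro h; simp [h] at hune
  have hupos : 0 < u.length := List.length_pos_iff.mpr hune'
  have hule : u.length ≤ s.length := hus.length_le
  have hvle : v.length ≤ s.length := hv.length_le
  rcases lt_trichotomy v.length u.length with hlt | heq | hgt
  · have hvu : v <+: u := List.prefix_of_prefix_length_le hv hus hlt.le
    have hvd : v <+: u.dropLast := by
      rw [List.dropLast_eq_take]
      rw [List.prefix_take_iff]
      exact ⟨hvu, by omega⟩
    exact ih u.dropLast.length (by simp; omega) u.dropLast rfl (hL u hu) v hvd hlyn
  · have hvu : v <+: u := List.prefix_of_prefix_length_le hv hus heq.le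
    rw [hvu.eq_of_length heq]
    exact hu
  · exfalso
    rcases hrest with h | h
    · have := congrArg List.length h
      simp at this
      omega
    · have hlex := (ltB_iff _ _).mp h
      have hvt : v = s.take v.length := List.prefix_iff_eq_take.mp hv
      have h1 := hlyn.2 (v.drop u.length) (List.drop_suffix _ _)
        (by intro h'; have := congrArg List.length h'; simp at this; omega)
        (by intro h'; have := congrArg List.length h'; simp at this; omega)
      have h2 := not_lex_take _ _ hlex v.length (v.length - u.length) (by omega)
      apply h2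
      have h3 : v.drop u.length = (s.drop u.length).take (v.length - u.length) := by
        conv_lhs => rw [hvt]
        rw [List.drop_take]
      rw [← h3, ← hvt]
      exact h1

noncomputable def allGood (Ls : List (List Bool)) : List Bool → Bool
  | [] => true
  | a :: t => good Ls (a :: t) && allGood Ls t

theorem allGood_spec (Ls : List (List Bool)) : ∀ t : List Bool, allGood Ls t = true →
    ∀ s : List Bool, s <:+ t → good Ls s = true
  | [], _, s, hs => by rw [List.suffix_nil.mp hs]; simp [good]
  | a :: t, h, s, hs => by
    simp only [allGood, Bool.and_eq_true] at h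
    rcases List.suffix_cons_iff.mp hs with rfl | hs'
    · exact h.1
    · exact allGood_spec Ls t h.2 s hs'

/-- Evaluate a list to literal constructors before passing it on. -/
noncomputable def forceRev (k : List Bool → Bool) (x : List Bool) : List Bool → Bool :=
  List.rec (fun acc => k acc) (fun a _ ih acc => Bool.rec (ih (false :: acc)) (ih (true :: acc)) a) x

theorem forceRev_eq (k : List Bool → Bool) :
    ∀ (x acc : List Bool), forceRev k x acc = k (x.reverse ++ acc)
  | [], _ => by simp [forceRev]
  | a :: x, acc => by
    have h : forceRev k (a :: x) acc =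
        Bool.rec (forceRev k x (false :: acc)) (forceRev k x (true :: acc)) a := rfl
    rw [h]
    cases a <;> simp [forceRev_eq k x]

noncomputable def force (x : List Bool) (k : List Bool → Bool) : Bool :=
  forceRev (fun y => forceRev k y []) x []

theorem force_eq (x : List Bool) (k : List Bool → Bool) : force x k = k x := by
  simp [force, forceRev_eq]

noncomputable def forceL : List (List Bool) → (List (List Bool) → Bool) → Bool
  | [], k => k []
  | a :: x, k => force a fun a' => forceL x fun y => k (a' :: y)

theorem forceL_eq : ∀ (x : List (List Bool)) (k : List (List Bool) → Bool), forceL x k = k x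
  | [], _ => rfl
  | a :: x, k => by simp [forceL, force_eq, forceL_eq x]

/-! ### The word of length 506 -/

def code : ℕ :=
  179099394946717244706742952095308091992980890563251347680587799412127257570995233285901523568451977421432514477243967881197051494699424720842345002261338

def w0 : List Bool := (List.range 506).map fun i => code.testBit i

def pos0 : List (ℕ × ℕ) :=
  [(0, 1), (1, 1), (0, 2), (2, 3), (0, 5), (5, 8), (0, 13), (13, 21), (47, 29), (0, 34), (34, 42),
    (0, 76), (76, 118), (0, 194), (194, 312), (0, 506)]

noncomputable def dropR (n : ℕ) : List Bool → List Bool :=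
  Nat.rec (fun l => l) (fun _ ih l => List.rec [] (fun _ t _ => ih t) l) n

noncomputable def takeR (n : ℕ) : List Bool → List Bool :=
  Nat.rec (fun _ => []) (fun _ ih l => List.rec [] (fun a t _ => a :: ih t) l) n

theorem dropR_isSuffix : ∀ (n : ℕ) (l : List Bool), dropR n l <:+ l
  | 0, _ => List.suffix_refl _
  | _ + 1, [] => List.suffix_refl _
  | n + 1, a :: t => (dropR_isSuffix n t).trans (List.suffix_cons a t)

theorem takeR_isPrefix : ∀ (n : ℕ) (l : List Bool), takeR n l <+: l
  | 0, _ => List.nil_prefix
  | _ + 1, [] => List.prefix_refl _
  | n + 1, a :: t => List.cons_prefix_cons.mpr ⟨rfl, takeR_isPrefix n t⟩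

noncomputable def cut (w : List Bool) (q : ℕ × ℕ) : List Bool := takeR q.2 (dropR q.1 w)

theorem cut_isInfix (w : List Bool) (q : ℕ × ℕ) : cut w q <:+: w :=
  (takeR_isPrefix _ _).isInfix.trans (dropR_isSuffix _ _).isInfix

theorem check0 : (force w0 fun w => forceL (pos0.map (cut w)) fun Ls =>
    lynB w && (Ls.all fun u => good Ls u.dropLast) && allGood Ls w) = true := by
  decide +kernel

theorem finite_factors (w : List Bool) : {u : List Bool | u <:+: w ∧ IsLyndon u}.Finite := by
  apply (List.finite_toSet w.sublists).subset
  intro u hu
  exact List.mem_sublists.mpr hu.1.sublist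

theorem w0_lyndon : IsLyndon w0 := by
  have h := check0
  simp only [force_eq, forceL_eq, Bool.and_eq_true] at h
  exact lynB_spec _ h.1.1

theorem w0_count : lyndonCount w0 ≤ 16 := by
  have h := check0
  simp only [force_eq, forceL_eq, Bool.and_eq_true, List.all_eq_true] at h
  have hsub : {u : List Bool | u <:+: w0 ∧ IsLyndon u} ⊆ ↑((pos0.map (cut w0)).toFinset) := by
    rintro u ⟨hu, hl⟩
    obtain ⟨s, hus, hs⟩ := List.infix_iff_prefix_suffix.mp hu
    simp only [List.coe_toFinset, Set.mem_ofPred_eq]
    exact good_spec _ h.1.2 _ s rfl (allGood_spec _ _ h.2 s hs) u hus hl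
  calc lyndonCount w0 ≤ (↑((pos0.map (cut w0)).toFinset) : Set (List Bool)).ncard :=
        Set.ncard_le_ncard hsub (Finset.finite_toSet _)
    _ = ((pos0.map (cut w0)).toFinset).card := Set.ncard_coe_finset _
    _ ≤ (pos0.map (cut w0)).length := List.toFinset_card_le _
    _ = 16 := by simp [pos0]

/-! ### The Christoffel words of length 506 -/

/-- Walk down the Stern-Brocot tree towards p / n, listing positions of factors. -/
def walk (p n : ℕ) : ℕ → ℕ → ℕ → ℕ → ℕ → List (ℕ × ℕ)
  | 0, _, _, _, _ => []
  | f + 1, a, b, c, d =>
    bif Nat.ble ((a + c) * n) (p * (b + d)) then (0, b + d) :: walk p n f (a + c) (b + d) c d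
    else (n - (b + d), b + d) :: walk p n f a b (a + c) (b + d)

def cands (p : ℕ) : List (ℕ × ℕ) := (0, 1) :: (505, 1) :: walk p 506 15 0 1 1 1

def key (u : List Bool) : ℕ := 2 * u.length + (bif u.headD false then 1 else 0)

noncomputable def checkP (p : ℕ) : Bool :=
  !(Nat.gcd p 506 == 1) || force (christoffel p 506) fun w => forceL ((cands p).map (cut w)) fun Ls =>
    Ls.all lynB && decide (Ls.map key).Nodup && Ls.length == 17

theorem check1_0 : (List.range' 0 13).all checkP = true := by
  decide +kernel

theorem check1_1 : (List.range' 13 13).all checkP = true := by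
  decide +kernel

theorem check1_2 : (List.range' 26 13).all checkP = true := by
  decide +kernel

theorem check1_3 : (List.range' 39 13).all checkP = true := by
  decide +kernel

theorem check1_4 : (List.range' 52 13).all checkP = true := by
  decide +kernel

theorem check1_5 : (List.range' 65 13).all checkP = true := by
  decide +kernel

theorem check1_6 : (List.range' 78 13).all checkP = true := by
  decide +kernel

theorem check1_7 : (List.range' 91 13).all checkP = true := by
  decide +kernel

theorem check1_8 : (List.range' 104 13).all checkP = true := by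
  decide +kernel

theorem check1_9 : (List.range' 117 13).all checkP = true := by
  decide +kernel

theorem check1_10 : (List.range' 130 13).all checkP = true := by
  decide +kernel

theorem check1_11 : (List.range' 143 13).all checkP = true := by
  decide +kernel

theorem check1_12 : (List.range' 156 13).all checkP = true := by
  decide +kernel

theorem check1_13 : (List.range' 169 13).all checkP = true := by
  decide +kernel

theorem check1_14 : (List.range' 182 13).all checkP = true := by
  decide +kernel

theorem check1_15 : (List.range' 195 13).all checkP = true := by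
  decide +kernel

theorem check1_16 : (List.range' 208 13).all checkP = true := by
  decide +kernel

theorem check1_17 : (List.range' 221 13).all checkP = true := by
  decide +kernel

theorem check1_18 : (List.range' 234 13).all checkP = true := by
  decide +kernel

theorem check1_19 : (List.range' 247 13).all checkP = true := by
  decide +kernel

theorem check1_20 : (List.range' 260 13).all checkP = true := by
  decide +kernel

theorem check1_21 : (List.range' 273 13).all checkP = true := by
  decide +kernel

theorem check1_22 : (List.range' 286 13).all checkP = true := by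
  decide +kernel

theorem check1_23 : (List.range' 299 13).all checkP = true := by
  decide +kernel

theorem check1_24 : (List.range' 312 13).all checkP = true := by
  decide +kernel

theorem check1_25 : (List.range' 325 13).all checkP = true := by
  decide +kernel

theorem check1_26 : (List.range' 338 13).all checkP = true := by
  decide +kernel

theorem check1_27 : (List.range' 351 13).all checkP = true := by
  decide +kernel

theorem check1_28 : (List.range' 364 13).all checkP = true := by
  decide +kernel

theorem check1_29 : (List.range' 377 13).all checkP = true := by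
  decide +kernel

theorem check1_30 : (List.range' 390 13).all checkP = true := by
  decide +kernel

theorem check1_31 : (List.range' 403 13).all checkP = true := by
  decide +kernel

theorem check1_32 : (List.range' 416 13).all checkP = true := by
  decide +kernel

theorem check1_33 : (List.range' 429 13).all checkP = true := by
  decide +kernel

theorem check1_34 : (List.range' 442 13).all checkP = true := by
  decide +kernel

theorem check1_35 : (List.range' 455 13).all checkP = true := by
  decide +kernel

theorem check1_36 : (List.range' 468 13).all checkP = true := by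
  decide +kernel

theorem check1_37 : (List.range' 481 13).all checkP = true := by
  decide +kernel

theorem check1_38 : (List.range' 494 13).all checkP = true := by
  decide +kernel

theorem check1 (p : ℕ) (hp : p ≤ 506) : checkP p = true := by
  have key : ∀ a : ℕ, (List.range' a 13).all checkP = true → a ≤ p → p < a + 13 →
      checkP p = true := fun a h h1 h2 =>
    List.all_eq_true.mp h p (List.mem_range'_1.mpr ⟨h1, h2⟩)
  rcases Nat.lt_or_ge p 13 with h0 | h0
  · exact key 0 check1_0 (by omega) (by omega)
  rcases Nat.lt_or_ge p 26 with h1 | h1
  · exact key 13 check1_1 (by omega) (by omega)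
  rcases Nat.lt_or_ge p 39 with h2 | h2
  · exact key 26 check1_2 (by omega) (by omega)
  rcases Nat.lt_or_ge p 52 with h3 | h3
  · exact key 39 check1_3 (by omega) (by omega)
  rcases Nat.lt_or_ge p 65 with h4 | h4
  · exact key 52 check1_4 (by omega) (by omega)
  rcases Nat.lt_or_ge p 78 with h5 | h5
  · exact key 65 check1_5 (by omega) (by omega)
  rcases Nat.lt_or_ge p 91 with h6 | h6
  · exact key 78 check1_6 (by omega) (by omega)
  rcases Nat.lt_or_ge p 104 with h7 | h7
  · exact key 91 check1_7 (by omega) (by omega)
  rcases Nat.lt_or_ge p 117 with h8 | h8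
  · exact key 104 check1_8 (by omega) (by omega)
  rcases Nat.lt_or_ge p 130 with h9 | h9
  · exact key 117 check1_9 (by omega) (by omega)
  rcases Nat.lt_or_ge p 143 with h10 | h10
  · exact key 130 check1_10 (by omega) (by omega)
  rcases Nat.lt_or_ge p 156 with h11 | h11
  · exact key 143 check1_11 (by omega) (by omega)
  rcases Nat.lt_or_ge p 169 with h12 | h12
  · exact key 156 check1_12 (by omega) (by omega)
  rcases Nat.lt_or_ge p 182 with h13 | h13
  · exact key 169 check1_13 (by omega) (by omega)
  rcases Nat.lt_or_ge p 195 with h14 | h14
  · exact key 182 check1_14 (by omega) (by omega)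
  rcases Nat.lt_or_ge p 208 with h15 | h15
  · exact key 195 check1_15 (by omega) (by omega)
  rcases Nat.lt_or_ge p 221 with h16 | h16
  · exact key 208 check1_16 (by omega) (by omega)
  rcases Nat.lt_or_ge p 234 with h17 | h17
  · exact key 221 check1_17 (by omega) (by omega)
  rcases Nat.lt_or_ge p 247 with h18 | h18
  · exact key 234 check1_18 (by omega) (by omega)
  rcases Nat.lt_or_ge p 260 with h19 | h19
  · exact key 247 check1_19 (by omega) (by omega)
  rcases Nat.lt_or_ge p 273 with h20 | h20
  · exact key 260 check1_20 (by omega) (by omega)
  rcases Nat.lt_or_ge p 286 with h21 | h21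
  · exact key 273 check1_21 (by omega) (by omega)
  rcases Nat.lt_or_ge p 299 with h22 | h22
  · exact key 286 check1_22 (by omega) (by omega)
  rcases Nat.lt_or_ge p 312 with h23 | h23
  · exact key 299 check1_23 (by omega) (by omega)
  rcases Nat.lt_or_ge p 325 with h24 | h24
  · exact key 312 check1_24 (by omega) (by omega)
  rcases Nat.lt_or_ge p 338 with h25 | h25
  · exact key 325 check1_25 (by omega) (by omega)
  rcases Nat.lt_or_ge p 351 with h26 | h26
  · exact key 338 check1_26 (by omega) (by omega)
  rcases Nat.lt_or_ge p 364 with h27 | h27
  · exact key 351 check1_27 (by omega) (by omega)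
  rcases Nat.lt_or_ge p 377 with h28 | h28
  · exact key 364 check1_28 (by omega) (by omega)
  rcases Nat.lt_or_ge p 390 with h29 | h29
  · exact key 377 check1_29 (by omega) (by omega)
  rcases Nat.lt_or_ge p 403 with h30 | h30
  · exact key 390 check1_30 (by omega) (by omega)
  rcases Nat.lt_or_ge p 416 with h31 | h31
  · exact key 403 check1_31 (by omega) (by omega)
  rcases Nat.lt_or_ge p 429 with h32 | h32
  · exact key 416 check1_32 (by omega) (by omega)
  rcases Nat.lt_or_ge p 442 with h33 | h33
  · exact key 429 check1_33 (by omega) (by omega)
  rcases Nat.lt_or_ge p 455 with h34 | h34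
  · exact key 442 check1_34 (by omega) (by omega)
  rcases Nat.lt_or_ge p 468 with h35 | h35
  · exact key 455 check1_35 (by omega) (by omega)
  rcases Nat.lt_or_ge p 481 with h36 | h36
  · exact key 468 check1_36 (by omega) (by omega)
  rcases Nat.lt_or_ge p 494 with h37 | h37
  · exact key 481 check1_37 (by omega) (by omega)
  exact key 494 check1_38 (by omega) (by omega)

theorem christoffel_count (p : ℕ) (hp : p ≤ 506) (hg : Nat.gcd p 506 = 1) :
    17 ≤ lyndonCount (christoffel p 506) := by
  have h := check1 p hp
  simp only [checkP, hg, BEq.rfl, Bool.not_true, Bool.false_or, force_eq, forceL_eq,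
    Bool.and_eq_true, List.all_eq_true, decide_eq_true_eq, beq_iff_eq] at h
  obtain ⟨⟨h1, h2⟩, h3⟩ := h
  have hsub : (↑(((cands p).map (cut (christoffel p 506))).toFinset) : Set (List Bool)) ⊆
      {u : List Bool | u <:+: christoffel p 506 ∧ IsLyndon u} := by
    intro u hu
    simp only [List.coe_toFinset, Set.mem_ofPred_eq] at hu
    refine ⟨?_, lynB_spec _ (h1 u hu)⟩
    obtain ⟨q, _, rfl⟩ := List.mem_map.mp hu
    exact cut_isInfix _ _
  calc 17 = (((cands p).map (cut (christoffel p 506))).toFinset).card := by
        rw [List.toFinset_card_of_nodup (List.Nodup.of_map key h2), h3]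
    _ = (↑(((cands p).map (cut (christoffel p 506))).toFinset) : Set (List Bool)).ncard :=
        (Set.ncard_coe_finset _).symm
    _ ≤ _ := Set.ncard_le_ncard hsub (finite_factors _)

theorem result : ∃ n : ℕ, 1 ≤ n ∧ ∀ p : ℕ, p ≤ n → Nat.gcd p n = 1 →
    minCount n < lyndonCount (christoffel p n) := by
  refine ⟨506, by norm_num, fun p hp hg => ?_⟩
  have h1 : minCount 506 ≤ lyndonCount w0 :=
    Nat.sInf_le ⟨w0, w0_lyndon, by simp [w0], rfl⟩
  have h2 := w0_count
  have h3 := christoffel_count p hp hg
  omega

end Pool.Agent.Results.MP_c50127_co.Counterexample
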